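import Pool.Agent.Helper42.LS.Defs

open Filter Topology

namespace Pool.Agent.Helper42.LS

theorem CB_B2_neg (x : ℝ) : B2 (-x) = B2 x := by
  unfold B2
  by_cases h : Int.fract x = 0
  · have h1 : Int.fract (-x) = 0 := by rw [Int.fract_neg_eq_zero]; exact h
    rw [h, h1]
  · rw [Int.fract_neg h]; ring

theorem CB_B2_zero : B2 0 = 1 / 6 := by
  unfold B2; simp

theorem CB_swap (V : Finset ℕ) (w t : ℕ → ℝ) (I : Finset ℕ) (c x : ℕ → ℝ) :
    ∑ v ∈ V, w v * ∑ k ∈ I, c k * B2 (x k * t v) =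
      ∑ k ∈ I, c k * ∑ v ∈ V, w v * B2 (x k * t v) := by
  simp_rw [Finset.mul_sum]
  rw [Finset.sum_comm]
  apply Finset.sum_congr rfl
  intro k _
  apply Finset.sum_congr rfl
  intro v _
  ring

theorem CB_num1 (u : ℝ) (hu28 : 2.8 ≤ u) :
    2 * (1 / (8 * u ^ 2)) * (1 / 12 + u / 8) ^ 2 ≤ 0.006 := by
  have hu0 : 0 < u := by linarith
  have h8 : 2 * (1 / (8 * u ^ 2)) * (1 / 12 + u / 8) ^ 2 = (1 / 12 * (1 / u) + 1 / 8) ^ 2 / 4 := by
    field_simp
    ring
  rw [h8]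
  have h9 : 1 / u ≤ 1 / 2.8 := one_div_le_one_div_of_le (by norm_num) hu28
  have h10 : 0 < 1 / u := by positivity
  have h11 : (1 / 12 * (1 / u) + 1 / 8) ≤ 1 / 12 * (1 / 2.8) + 1 / 8 := by linarith
  have h12 : (1 / 12 * (1 / u) + 1 / 8) ^ 2 ≤ (1 / 12 * (1 / 2.8) + 1 / 8) ^ 2 :=
    pow_le_pow_left₀ (by positivity) h11 2
  have h13 : ((1 / 12 * (1 / 2.8) + 1 / 8) ^ 2 : ℝ) / 4 ≤ 0.006 := by norm_num
  linarith

theorem CB_num2 (Q x : ℝ) (h : 0.0367 ≤ Q) (h2 : x ≤ 0.006) (h3 : 12 * Q ^ 2 ≤ Q / 6 + x) :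
    False := by
  nlinarith

theorem st_CB (h1 : ST_F1) (h3 : ST_F3) (h4 : ST_F4) : ST_CB := by
  intro V w t ρ K hw hsum hρ hK
  by_contra hcon
  push Not at hcon
  set s : ℝ → ℝ := fun x => ∑ v ∈ V, w v * B2 (x * t v) with hs
  set η : ℝ := (K : ℝ) ^ (-(2 / 3 : ℝ)) / 8 with hη
  -- sizes
  have hw1 : ∀ v ∈ V, w v ≤ 1 := by
    intro v hv
    rw [← hsum]
    exact Finset.single_le_sum (f := w) hw hv
  have hρ1 : ρ ≤ 1 := by
    rw [hρ, ← hsum]
    apply Finset.sum_le_sum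
    intro v hv
    have := hw v hv
    have := hw1 v hv
    nlinarith
  have hK22 : (22 : ℝ) ≤ K := by
    have hK0 : (0 : ℝ) ≤ K := Nat.cast_nonneg K
    nlinarith
  have hKpos : (0 : ℝ) < K := by linarith
  set u : ℝ := (K : ℝ) ^ (1 / 3 : ℝ) with hu
  have hu0 : 0 < u := Real.rpow_pos_of_pos hKpos _
  have hu3 : u ^ 3 = K := by
    rw [hu, ← Real.rpow_natCast, ← Real.rpow_mul hKpos.le]; norm_num
  have hu28 : 2.8 ≤ u := by
    by_contra hlt
    push Not at hlt
    have : u ^ 3 < 2.8 ^ 3 := by gcongr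
    rw [hu3] at this
    norm_num at this
    linarith
  have hηu : η = 1 / (8 * u ^ 2) := by
    have : (K : ℝ) ^ (-(2 / 3 : ℝ)) = (u ^ 2)⁻¹ := by
      rw [hu, ← Real.rpow_natCast, ← Real.rpow_mul hKpos.le, ← Real.rpow_neg hKpos.le]
      norm_num
    rw [hη, this]
    field_simp
  have hη0 : 0 < η := by rw [hηu]; positivity
  have hηK : η * K = u / 8 := by
    rw [hηu, ← hu3]; field_simp
  have hηK2 : η ^ 2 * K = 1 / (64 * u) := by
    rw [hηu, ← hu3]; field_simp; norm_num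
  -- weights
  set F : ℕ → ℝ := fun k => 1 - (k : ℝ) / K with hF
  have hF0 : ∀ k ∈ Finset.Ico 1 K, 0 ≤ F k := by
    intro k hk
    rw [Finset.mem_Ico] at hk
    have : (k : ℝ) / K ≤ 1 := by
      rw [div_le_one hKpos]; exact_mod_cast hk.2.le
    simp only [hF]; linarith
  have hF1 : ∀ k ∈ Finset.Ico 1 K, F k ≤ 1 := by
    intro k hk
    have : 0 ≤ (k : ℝ) / K := by positivity
    simp only [hF]; linarith
  have hFsum : ∑ k ∈ Finset.Ico 1 K, F k ≤ K := by
    calc ∑ k ∈ Finset.Ico 1 K, F k ≤ ∑ k ∈ Finset.Ico 1 K, (1 : ℝ) := Finset.sum_le_sum hF1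
      _ ≤ K := by
        rw [Finset.sum_const, Nat.card_Ico, nsmul_eq_mul, mul_one]
        exact_mod_cast Nat.sub_le K 1
  have hFsum0 : 0 ≤ ∑ k ∈ Finset.Ico 1 K, F k := Finset.sum_nonneg hF0
  have hsη : ∀ k : ℕ, 1 ≤ k → k ≤ 2 * K → s k ≤ η := fun k hk1 hk2 => (hcon k hk1 hk2).le
  -- negative part
  set m : ℕ → ℝ := fun k => max 0 (-s k) with hm
  have hm0 : ∀ k, 0 ≤ m k := fun k => le_max_left _ _
  have hms : ∀ k, m k * s k = -(m k) ^ 2 := by
    intro k
    simp only [hm]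
    rcases le_total 0 (-s k) with h | h
    · rw [max_eq_right h]; ring
    · rw [max_eq_left h]; ring
  set Q : ℝ := ∑ k ∈ Finset.Ico 1 K, F k * m k ^ 2 with hQ
  set Bq : ℝ := ∑ k ∈ Finset.Ico 1 K, F k * m k with hBq
  have hBq0 : 0 ≤ Bq := Finset.sum_nonneg fun k hk => mul_nonneg (hF0 k hk) (hm0 k)
  have hkK : ∀ k ∈ Finset.Ico 1 K, 1 ≤ k ∧ k ≤ 2 * K := by
    intro k hk; rw [Finset.mem_Ico] at hk; omega
  have hK1 : 1 ≤ K := by
    have : (1 : ℝ) ≤ K := by linarith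
    exact_mod_cast this
  -- F1
  have e1 : 0 ≤ 1 / 6 + 2 * ∑ k ∈ Finset.Ico 1 K, F k * s k := by
    have h : 0 ≤ ∑ v ∈ V, w v * (1 / 6 + 2 * ∑ k ∈ Finset.Ico 1 K, F k * B2 (k * t v)) :=
      Finset.sum_nonneg fun v hv => mul_nonneg (hw v hv) (h1 K (t v) hK1)
    have h' : ∑ v ∈ V, w v * (1 / 6 + 2 * ∑ k ∈ Finset.Ico 1 K, F k * B2 (k * t v)) =
        1 / 6 + 2 * ∑ k ∈ Finset.Ico 1 K, F k * s k := by
      have h2 := CB_swap V w t (Finset.Ico 1 K) F (fun k => (k : ℝ))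
      rw [← h2]
      have h3 : ∀ v ∈ V, w v * (1 / 6 + 2 * ∑ k ∈ Finset.Ico 1 K, F k * B2 (k * t v)) =
          w v * (1 / 6) + 2 * (w v * ∑ k ∈ Finset.Ico 1 K, F k * B2 (k * t v)) := by
        intro v _; ring
      rw [Finset.sum_congr rfl h3, Finset.sum_add_distrib, ← Finset.sum_mul, hsum, one_mul,
        ← Finset.mul_sum]
    rwa [h'] at h
  have e1' : Bq ≤ 1 / 12 + η * K := by
    have h : ∑ k ∈ Finset.Ico 1 K, F k * s k ≤ ∑ k ∈ Finset.Ico 1 K, (F k * η - F k * m k) := by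
      apply Finset.sum_le_sum
      intro k hk
      rw [← mul_sub]
      apply mul_le_mul_of_nonneg_left _ (hF0 k hk)
      have h2 := hsη k (hkK k hk).1 (hkK k hk).2
      simp only [hm]
      rcases le_total 0 (-s k) with h | h
      · rw [max_eq_right h]; linarith
      · rw [max_eq_left h]; linarith
    rw [Finset.sum_sub_distrib, ← Finset.sum_mul] at h
    have h2 : (∑ k ∈ Finset.Ico 1 K, F k) * η ≤ K * η := mul_le_mul_of_nonneg_right hFsum hη0.le
    have h3 : (∑ k ∈ Finset.Ico 1 K, F k * m k) = Bq := rfl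
    rw [h3] at h
    linarith
  -- F3
  have e3 : ρ * (K / (2 * Real.pi ^ 4)) ≤ 1 / 36 + 2 * ∑ k ∈ Finset.Ico 1 K, F k * s k ^ 2 := by
    set Gf : ℕ → ℕ → ℝ := fun v v' => 1 / 36 + 2 * ∑ k ∈ Finset.Ico 1 K, F k *
      (B2 (k * t v) * B2 (k * t v')) with hG
    have hsq : ∑ v ∈ V, ∑ v' ∈ V, w v * w v' * Gf v v' =
        1 / 36 + 2 * ∑ k ∈ Finset.Ico 1 K, F k * s k ^ 2 := by
      have h2 : ∀ v ∈ V, ∑ v' ∈ V, w v * w v' * Gf v v' =
          w v * (1 / 36) + 2 * (w v * ∑ k ∈ Finset.Ico 1 K, (F k * s k) * B2 (k * t v)) := by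
        intro v _
        have h5 := CB_swap V w t (Finset.Ico 1 K) (fun k => F k * B2 (k * t v)) (fun k => (k : ℝ))
        have h6 : ∀ v' ∈ V, w v * w v' * Gf v v' = w v * (w v' * (1 / 36)) +
            2 * (w v * (w v' * ∑ k ∈ Finset.Ico 1 K, F k * B2 (k * t v) * B2 (k * t v'))) := by
          intro v' _
          simp only [hG]
          have h7 : ∑ k ∈ Finset.Ico 1 K, F k * (B2 (k * t v) * B2 (k * t v')) =
            ∑ k ∈ Finset.Ico 1 K, F k * B2 (k * t v) * B2 (k * t v') := by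
            apply Finset.sum_congr rfl; intro k _; ring
          rw [h7]; ring
        rw [Finset.sum_congr rfl h6, Finset.sum_add_distrib, ← Finset.mul_sum, ← Finset.mul_sum,
          ← Finset.mul_sum, ← Finset.sum_mul, hsum, one_mul, h5]
        have h8 : ∑ k ∈ Finset.Ico 1 K, F k * B2 (k * t v) * ∑ v ∈ V, w v * B2 (k * t v) =
          ∑ k ∈ Finset.Ico 1 K, (F k * s k) * B2 (k * t v) := by
          apply Finset.sum_congr rfl; intro k _; simp only [hs]; ring
        rw [h8]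
      rw [Finset.sum_congr rfl h2, Finset.sum_add_distrib, ← Finset.sum_mul, hsum, one_mul,
        ← Finset.mul_sum, CB_swap V w t (Finset.Ico 1 K) (fun k => F k * s k) (fun k => (k : ℝ))]
      have h9 : ∑ k ∈ Finset.Ico 1 K, (F k * s k) * ∑ v ∈ V, w v * B2 (k * t v) =
          ∑ k ∈ Finset.Ico 1 K, F k * s k ^ 2 := by
        apply Finset.sum_congr rfl; intro k _; simp only [hs]; ring
      rw [h9]
    rw [← hsq, hρ, Finset.sum_mul]
    apply Finset.sum_le_sum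
    intro v hv
    have h2 : w v * w v * Gf v v ≤ ∑ v' ∈ V, w v * w v' * Gf v v' := by
      apply Finset.single_le_sum (f := fun v' => w v * w v' * Gf v v') _ hv
      intro v' hv'
      exact mul_nonneg (mul_nonneg (hw v hv) (hw v' hv')) (h3 K (t v) (t v') hK1).1
    refine le_trans ?_ h2
    have h5 := (h3 K (t v) (t v) hK1).2
    have h6 : 0 ≤ w v * w v := mul_nonneg (hw v hv) (hw v hv)
    have h7 := mul_le_mul_of_nonneg_left h5 h6
    have h8 : w v ^ 2 * (K / (2 * Real.pi ^ 4)) = w v * w v * (K / (2 * Real.pi ^ 4)) := by ring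
    rw [h8]; exact h7
  have e3' : ∑ k ∈ Finset.Ico 1 K, F k * s k ^ 2 ≤ η ^ 2 * K + Q := by
    have h : ∑ k ∈ Finset.Ico 1 K, F k * s k ^ 2 ≤
        ∑ k ∈ Finset.Ico 1 K, (F k * η ^ 2 + F k * m k ^ 2) := by
      apply Finset.sum_le_sum
      intro k hk
      rw [← mul_add]
      apply mul_le_mul_of_nonneg_left _ (hF0 k hk)
      have h2 := hsη k (hkK k hk).1 (hkK k hk).2
      simp only [hm]
      rcases le_total 0 (-s k) with h | h
      · rw [max_eq_right h, neg_sq]; linarith [sq_nonneg η]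
      · rw [max_eq_left h]
        have h5 : s k ^ 2 ≤ η ^ 2 := pow_le_pow_left₀ (by linarith) h2 2
        linarith
    rw [Finset.sum_add_distrib, ← Finset.sum_mul] at h
    have h2 : (∑ k ∈ Finset.Ico 1 K, F k) * η ^ 2 ≤ K * η ^ 2 :=
      mul_le_mul_of_nonneg_right hFsum (by positivity)
    have h3 : (∑ k ∈ Finset.Ico 1 K, F k * m k ^ 2) = Q := rfl
    rw [h3] at h
    linarith
  have hpi4 : Real.pi ^ 4 ≤ 97.5 := by
    have h2 : Real.pi < 3.1416 := Real.pi_lt_d4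
    have h3 : Real.pi ^ 4 ≤ 3.1416 ^ 4 := by
      have := Real.pi_pos
      gcongr
    refine h3.trans ?_
    norm_num
  have hQlow : 0.0367 ≤ Q := by
    have h2 : 22 / (2 * 97.5) ≤ ρ * (K / (2 * Real.pi ^ 4)) := by
      have h5 : ρ * (K / (2 * Real.pi ^ 4)) = (ρ * K) / (2 * Real.pi ^ 4) := by ring
      rw [h5]
      have hpp : 0 < Real.pi ^ 4 := by positivity
      apply div_le_div₀ (by linarith) hK (by positivity)
      linarith
    have h5 : η ^ 2 * K ≤ 1 / (64 * 2.8) := by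
      rw [hηK2]
      apply one_div_le_one_div_of_le (by norm_num)
      linarith
    norm_num at h2 h5 ⊢
    linarith
  -- F4
  have e4 : 12 * Q ^ 2 ≤ Q / 6 + 2 * η * Bq ^ 2 := by
    set b : ℕ → ℝ := fun k => F k * m k with hb
    have hb0 : ∀ k ∈ Finset.Ico 1 K, 0 ≤ b k := fun k hk => mul_nonneg (hF0 k hk) (hm0 k)
    -- left side
    have hbs : ∑ k ∈ Finset.Ico 1 K, b k * s k = -Q := by
      rw [hQ, ← Finset.sum_neg_distrib]
      apply Finset.sum_congr rfl
      intro k _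
      simp only [hb]
      have := hms k
      rw [mul_assoc, this]; ring
    set z : ℕ → ℝ := fun v => ∑ k ∈ Finset.Ico 1 K, b k * B2 (k * t v) with hz
    have hzs : ∑ v ∈ V, w v * z v = -Q := by
      rw [← hbs]
      exact CB_swap V w t (Finset.Ico 1 K) b (fun k => (k : ℝ))
    have hjen : Q ^ 2 ≤ ∑ v ∈ V, w v * z v ^ 2 := by
      have h : 0 ≤ ∑ v ∈ V, w v * (z v + Q) ^ 2 :=
        Finset.sum_nonneg fun v hv => mul_nonneg (hw v hv) (sq_nonneg _)
      have h2 : ∑ v ∈ V, w v * (z v + Q) ^ 2 = ∑ v ∈ V, w v * z v ^ 2 +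
          2 * Q * ∑ v ∈ V, w v * z v + Q ^ 2 * ∑ v ∈ V, w v := by
        have h5 : 2 * Q * ∑ v ∈ V, w v * z v = ∑ v ∈ V, 2 * Q * (w v * z v) :=
          Finset.mul_sum _ _ _
        have h6 : Q ^ 2 * ∑ v ∈ V, w v = ∑ v ∈ V, Q ^ 2 * w v := Finset.mul_sum _ _ _
        rw [h5, h6, ← Finset.sum_add_distrib, ← Finset.sum_add_distrib]
        apply Finset.sum_congr rfl
        intro v _; ring
      rw [h2, hzs, hsum] at h
      linarith
    -- right side
    have hr : ∑ v ∈ V, w v * (12 * z v ^ 2) ≤ ∑ v ∈ V, w v * ∑ k ∈ Finset.Ico 1 K,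
        ∑ l ∈ Finset.Ico 1 K, b k * b l * (B2 (((k : ℝ) - l) * t v) + B2 (((k : ℝ) + l) * t v)) :=
      Finset.sum_le_sum fun v hv => mul_le_mul_of_nonneg_left (h4 K b (t v)) (hw v hv)
    have hr2 : ∑ v ∈ V, w v * ∑ k ∈ Finset.Ico 1 K, ∑ l ∈ Finset.Ico 1 K,
        b k * b l * (B2 (((k : ℝ) - l) * t v) + B2 (((k : ℝ) + l) * t v)) =
        ∑ k ∈ Finset.Ico 1 K, ∑ l ∈ Finset.Ico 1 K,
          b k * b l * (s ((k : ℝ) - l) + s ((k : ℝ) + l)) := by
      simp_rw [Finset.mul_sum]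
      rw [Finset.sum_comm]
      apply Finset.sum_congr rfl
      intro k _
      rw [Finset.sum_comm]
      apply Finset.sum_congr rfl
      intro l _
      simp only [hs]
      rw [← Finset.sum_add_distrib, Finset.mul_sum]
      apply Finset.sum_congr rfl
      intro v _
      ring
    have hsneg : ∀ x, s (-x) = s x := by
      intro x
      simp only [hs]
      apply Finset.sum_congr rfl
      intro v _
      rw [neg_mul, CB_B2_neg]
    have hs0 : s 0 = 1 / 6 := by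
      simp only [hs, zero_mul, CB_B2_zero]
      rw [← Finset.sum_mul, hsum, one_mul]
    have hkl : ∀ k ∈ Finset.Ico 1 K, ∀ l ∈ Finset.Ico 1 K, k ≠ l → s ((k : ℝ) - l) ≤ η := by
      intro k hk l hl hne
      rw [Finset.mem_Ico] at hk hl
      rcases lt_or_gt_of_ne hne with h | h
      · have h2 : ((k : ℝ) - l) = -(((l - k : ℕ) : ℝ)) := by
          rw [Nat.cast_sub h.le]; ring
        rw [h2, hsneg]
        exact hsη _ (by omega) (by omega)
      · have h2 : ((k : ℝ) - l) = ((k - l : ℕ) : ℝ) := by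
          rw [Nat.cast_sub h.le]
        rw [h2]
        exact hsη _ (by omega) (by omega)
    have hpl : ∀ k ∈ Finset.Ico 1 K, ∀ l ∈ Finset.Ico 1 K, s ((k : ℝ) + l) ≤ η := by
      intro k hk l hl
      rw [Finset.mem_Ico] at hk hl
      have h2 : ((k : ℝ) + l) = ((k + l : ℕ) : ℝ) := by push_cast; ring
      rw [h2]
      exact hsη _ (by omega) (by omega)
    have hr3 : ∑ k ∈ Finset.Ico 1 K, ∑ l ∈ Finset.Ico 1 K,
          b k * b l * (s ((k : ℝ) - l) + s ((k : ℝ) + l)) ≤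
        ∑ k ∈ Finset.Ico 1 K, ∑ l ∈ Finset.Ico 1 K,
          ((if k = l then b k * b l / 6 else 0) + b k * b l * (2 * η)) := by
      apply Finset.sum_le_sum
      intro k hk
      apply Finset.sum_le_sum
      intro l hl
      have hbb : 0 ≤ b k * b l := mul_nonneg (hb0 k hk) (hb0 l hl)
      have h2 := hpl k hk l hl
      split_ifs with h
      · subst h
        rw [sub_self, hs0]
        have h5 := mul_le_mul_of_nonneg_left h2 hbb
        have h6 : 0 ≤ b k * b k * η := mul_nonneg hbb hη0.le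
        linarith
      · have h5 := mul_le_mul_of_nonneg_left (add_le_add (hkl k hk l hl h) h2) hbb
        linarith
    have hr4 : ∑ k ∈ Finset.Ico 1 K, ∑ l ∈ Finset.Ico 1 K,
          ((if k = l then b k * b l / 6 else 0) + b k * b l * (2 * η)) =
        (∑ k ∈ Finset.Ico 1 K, b k * b k) / 6 + 2 * η * Bq ^ 2 := by
      simp_rw [Finset.sum_add_distrib]
      congr 1
      · rw [Finset.sum_div]
        apply Finset.sum_congr rfl
        intro k hk
        rw [Finset.sum_ite_eq]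
        simp [hk]
      · simp_rw [← Finset.sum_mul]
        have h5 : ∑ k ∈ Finset.Ico 1 K, ∑ l ∈ Finset.Ico 1 K, b k * b l = Bq ^ 2 := by
          rw [sq, hBq, Finset.sum_mul_sum]
        rw [h5]; ring
    have hr5 : ∑ k ∈ Finset.Ico 1 K, b k * b k ≤ Q := by
      apply Finset.sum_le_sum
      intro k hk
      simp only [hb]
      have h5 := hF0 k hk
      have h6 := hF1 k hk
      have h7 : 0 ≤ F k * m k ^ 2 := mul_nonneg h5 (sq_nonneg _)
      have h8 := mul_le_mul_of_nonneg_right h6 h7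
      have h9 : F k * m k * (F k * m k) = F k * (F k * m k ^ 2) := by ring
      rw [h9]
      linarith
    have hl : ∑ v ∈ V, w v * (12 * z v ^ 2) = 12 * ∑ v ∈ V, w v * z v ^ 2 := by
      rw [Finset.mul_sum]
      apply Finset.sum_congr rfl
      intro v _; ring
    rw [hr2, hl] at hr
    have := hr.trans (hr3.trans hr4.le)
    linarith
  -- conclusion
  have hfin : 2 * η * Bq ^ 2 ≤ 0.006 := by
    have h5 : Bq ≤ 1 / 12 + u / 8 := by rw [← hηK]; exact e1'
    have h6 : Bq ^ 2 ≤ (1 / 12 + u / 8) ^ 2 := by gcongr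
    have h7 : 2 * η * Bq ^ 2 ≤ 2 * η * (1 / 12 + u / 8) ^ 2 :=
      mul_le_mul_of_nonneg_left h6 (by positivity)
    refine h7.trans ?_
    rw [hηu]
    exact CB_num1 u hu28
  exact CB_num2 Q _ hQlow hfin e4

end Pool.Agent.Helper42.LS
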