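import Pool.Agent.Helper42.LS.Defs

open Filter Topology

namespace Pool.Agent.Helper42.LS

theorem PL_mix (p q r s M : ℤ) (h1 : |q * s| ≤ M) (h2 : |p * s + q * r| ≤ M)
    (h3 : |p * r| ≤ M) : |p * s| ≤ 2 * M := by
  by_contra hc
  push Not at hc
  have hM : 0 ≤ M := (abs_nonneg _).trans h1
  have h4 : |p * s| ≤ |p * s + q * r| + |q * r| := by
    have := abs_sub (p * s + q * r) (q * r)
    rwa [add_sub_cancel_right] at this
  have h5 : M + 1 ≤ |q * r| := by omega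
  have h6 : 2 * M + 1 ≤ |p * s| := by omega
  have h7 : |p * s| * |q * r| = |p * r| * |q * s| := by
    rw [← abs_mul, ← abs_mul]; congr 1; ring
  have h8 : |p * r| * |q * s| ≤ M * M := mul_le_mul h3 h1 (abs_nonneg _) hM
  have h9 : (2 * M + 1) * (M + 1) ≤ |p * s| * |q * r| :=
    mul_le_mul h6 h5 (by omega) (abs_nonneg _)
  nlinarith

theorem PL_dvd (p q r s U V W : ℤ) (hpq : IsCoprime p q) (hrs : IsCoprime r s)
    (e1 : U * (p * s + q * r) = V * (q * s)) (e2 : U * (p * r) = W * (q * s)) :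
    q * s ∣ U := by
  obtain ⟨α, β, h1⟩ := hpq
  obtain ⟨γ, δ, h2⟩ := hrs
  have hE : (α * γ) * (p * r) + (α * δ) * (p * s) + (β * γ) * (q * r) + (β * δ) * (q * s) = 1 := by
    have : (α * p + β * q) * (γ * r + δ * s) = 1 := by rw [h1, h2]; ring
    linear_combination this
  generalize α * γ = A at hE
  generalize α * δ = B at hE
  generalize β * γ = C at hE
  generalize β * δ = D at hE
  refine ⟨A * W * 1 + D * U * 1 + A * (B * (p * s) + C * (q * r)) * W +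
    (B * (p * s) + C * (q * r)) * D * U + B ^ 2 * (V * (p * s) - U * (p * r)) +
    2 * B * C * U * (p * r) + C ^ 2 * (V * (q * r) - U * (p * r)), ?_⟩
  generalize hEd : A * (p * r) + B * (p * s) + C * (q * r) + D * (q * s) = E at hE
  have key : U * E ^ 2 = q * s * (A * W * E + D * U * E + A * (B * (p * s) + C * (q * r)) * W +
    (B * (p * s) + C * (q * r)) * D * U + B ^ 2 * (V * (p * s) - U * (p * r)) +
    2 * B * C * U * (p * r) + C ^ 2 * (V * (q * r) - U * (p * r))) := by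
    rw [← hEd]
    linear_combination (A * (A * (p * r) + B * (p * s) + C * (q * r) + D * (q * s)) +
      A * (B * (p * s) + C * (q * r))) * e2 + (B ^ 2 * (p * s) + C ^ 2 * (q * r)) * e1
  rw [hE] at key
  linear_combination key

theorem PL_prod (a b : ℚ) (U V W : ℤ) (hU : U ≠ 0) (h1 : (U : ℚ) * (a + b) = V)
    (h2 : (U : ℚ) * (a * b) = W) (M : ℤ) (hUM : |U| ≤ M) (hVM : |V| ≤ M) (hWM : |W| ≤ M) :
    (max |a.num| (a.den : ℤ)) * (max |b.num| (b.den : ℤ)) ≤ 2 * M := by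
  set p := a.num with hp
  set q : ℤ := (a.den : ℤ) with hq
  set r := b.num with hr
  set s : ℤ := (b.den : ℤ) with hs
  have hq0 : 0 < q := by rw [hq]; exact_mod_cast a.den_pos
  have hs0 : 0 < s := by rw [hs]; exact_mod_cast b.den_pos
  have hqq : (q : ℚ) ≠ 0 := by exact_mod_cast hq0.ne'
  have hsq : (s : ℚ) ≠ 0 := by exact_mod_cast hs0.ne'
  have ha : a = (p : ℚ) / q := by rw [hp, hq]; exact_mod_cast (Rat.num_div_den a).symm
  have hb : b = (r : ℚ) / s := by rw [hr, hs]; exact_mod_cast (Rat.num_div_den b).symm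
  have e1 : U * (p * s + q * r) = V * (q * s) := by
    have : (U : ℚ) * (p * s + q * r) = V * (q * s) := by
      rw [← h1, ha, hb]; field_simp
    exact_mod_cast this
  have e2 : U * (p * r) = W * (q * s) := by
    have : (U : ℚ) * (p * r) = W * (q * s) := by
      rw [← h2, ha, hb]; field_simp
    exact_mod_cast this
  have hpq : IsCoprime p q := by
    rw [hp, hq, Int.isCoprime_iff_gcd_eq_one]
    exact_mod_cast a.reduced
  have hrs : IsCoprime r s := by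
    rw [hr, hs, Int.isCoprime_iff_gcd_eq_one]
    exact_mod_cast b.reduced
  obtain ⟨l, hl⟩ := PL_dvd p q r s U V W hpq hrs e1 e2
  have hqs0 : q * s ≠ 0 := mul_ne_zero hq0.ne' hs0.ne'
  have hl0 : l ≠ 0 := by rintro rfl; apply hU; rw [hl]; ring
  have hl1 : 1 ≤ |l| := Int.one_le_abs hl0
  have hV : V = l * (p * s + q * r) := by
    apply mul_right_cancel₀ hqs0
    rw [← e1, hl]; ring
  have hW : W = l * (p * r) := by
    apply mul_right_cancel₀ hqs0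
    rw [← e2, hl]; ring
  have hle : ∀ x : ℤ, |x| ≤ |l * x| := by
    intro x
    rw [abs_mul]
    nlinarith [abs_nonneg x]
  have b1 : |q * s| ≤ M := by
    refine (hle _).trans ?_
    rw [mul_comm l, ← hl]; exact hUM
  have b2 : |p * s + q * r| ≤ M := (hle _).trans (by rw [← hV]; exact hVM)
  have b3 : |p * r| ≤ M := (hle _).trans (by rw [← hW]; exact hWM)
  have hM : 0 ≤ M := (abs_nonneg _).trans hUM
  have b4 := PL_mix p q r s M b1 b2 b3
  have b5 := PL_mix q p s r M b3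
    (by have : q * r + p * s = p * s + q * r := by ring
        rw [this]; exact b2) b1
  rcases le_total |p| q with c1 | c1 <;> rcases le_total |r| s with c2 | c2
  · rw [max_eq_right c1, max_eq_right c2]
    rw [abs_of_pos (mul_pos hq0 hs0)] at b1
    linarith
  · rw [max_eq_right c1, max_eq_left c2]
    rw [abs_mul, abs_of_pos hq0] at b5
    linarith
  · rw [max_eq_left c1, max_eq_right c2]
    rw [abs_mul, abs_of_pos hs0] at b4
    linarith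
  · rw [max_eq_left c1, max_eq_left c2, ← abs_mul]
    linarith

theorem PL_hQ (q : ℚ) : hQ q = Real.log ((max |q.num| q.den : ℤ) : ℝ) := by
  unfold hQ
  congr 1
  have : ((max q.num.natAbs q.den : ℕ) : ℤ) = max |q.num| (q.den : ℤ) := by
    rw [Nat.cast_max, Int.natCast_natAbs]
  rw [← this]
  simp

theorem PL_H_pos (q : ℚ) : (1 : ℤ) ≤ max |q.num| (q.den : ℤ) :=
  le_max_of_le_right (by exact_mod_cast q.den_pos)

theorem PL_num (A B a1 b1 a2 b2 H1 H2 : ℤ) (h1 : |a1| ≤ H1) (h2 : |b1| ≤ H1) (h3 : |a2| ≤ H2)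
    (h4 : |b2| ≤ H2) :
    |(a1 * b2 - a2 * b1) ^ 2| ≤ (4 + 4 * |A| + A ^ 2 + 8 * |B|) * (H1 * H2) ^ 2 ∧
    |2 * ((a1 * b2 + a2 * b1) * (a1 * a2 + A * (b1 * b2)) + 2 * B * (b1 * b2) ^ 2)| ≤
      (4 + 4 * |A| + A ^ 2 + 8 * |B|) * (H1 * H2) ^ 2 ∧
    |(a1 * a2 - A * (b1 * b2)) ^ 2 - 4 * B * (b1 * b2) * (a1 * b2 + a2 * b1)| ≤
      (4 + 4 * |A| + A ^ 2 + 8 * |B|) * (H1 * H2) ^ 2 := by
  have hH1 : 0 ≤ H1 := (abs_nonneg _).trans h1
  have hH2 : 0 ≤ H2 := (abs_nonneg _).trans h3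
  set T := H1 * H2 with hT
  have hT0 : 0 ≤ T := mul_nonneg hH1 hH2
  have c1 : |a1 * b2| ≤ T := by rw [abs_mul]; exact mul_le_mul h1 h4 (abs_nonneg _) hH1
  have c2 : |a2 * b1| ≤ T := by
    rw [abs_mul, mul_comm]; exact mul_le_mul h2 h3 (abs_nonneg _) hH1
  have c3 : |a1 * a2| ≤ T := by rw [abs_mul]; exact mul_le_mul h1 h3 (abs_nonneg _) hH1
  have c4 : |b1 * b2| ≤ T := by rw [abs_mul]; exact mul_le_mul h2 h4 (abs_nonneg _) hH1
  have hA := abs_nonneg A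
  have hB := abs_nonneg B
  have d1 : |a1 * b2 - a2 * b1| ≤ 2 * T := (abs_sub _ _).trans (by linarith)
  have d2 : |a1 * b2 + a2 * b1| ≤ 2 * T := (abs_add_le _ _).trans (by linarith)
  have d3 : |a1 * a2 + A * (b1 * b2)| ≤ (1 + |A|) * T := by
    refine (abs_add_le _ _).trans ?_
    rw [abs_mul A]
    nlinarith
  have d4 : |a1 * a2 - A * (b1 * b2)| ≤ (1 + |A|) * T := by
    refine (abs_sub _ _).trans ?_
    rw [abs_mul A]
    nlinarith
  have hT2 : 0 ≤ T ^ 2 := sq_nonneg T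
  have hAA : |A| ^ 2 = A ^ 2 := sq_abs A
  have hA2 : 0 ≤ A ^ 2 := sq_nonneg A
  have i1 : 0 ≤ |A| * T ^ 2 := mul_nonneg hA hT2
  have i2 : 0 ≤ A ^ 2 * T ^ 2 := mul_nonneg hA2 hT2
  have i3 : 0 ≤ |B| * T ^ 2 := mul_nonneg hB hT2
  refine ⟨?_, ?_, ?_⟩
  · rw [abs_pow]
    have : |a1 * b2 - a2 * b1| ^ 2 ≤ (2 * T) ^ 2 := pow_le_pow_left₀ (abs_nonneg _) d1 2
    nlinarith
  · rw [abs_mul]
    have e1 : |(a1 * b2 + a2 * b1) * (a1 * a2 + A * (b1 * b2))| ≤ (2 * T) * ((1 + |A|) * T) := by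
      rw [abs_mul]; exact mul_le_mul d2 d3 (abs_nonneg _) (by linarith)
    have e2 : |2 * B * (b1 * b2) ^ 2| ≤ 2 * |B| * T ^ 2 := by
      rw [abs_mul, abs_mul, abs_pow]
      have : |b1 * b2| ^ 2 ≤ T ^ 2 := pow_le_pow_left₀ (abs_nonneg _) c4 2
      have h2' : |(2 : ℤ)| = 2 := rfl
      rw [h2']
      exact mul_le_mul_of_nonneg_left this (by linarith)
    have e3 := abs_add_le ((a1 * b2 + a2 * b1) * (a1 * a2 + A * (b1 * b2))) (2 * B * (b1 * b2) ^ 2)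
    have h2' : |(2 : ℤ)| = 2 := rfl
    rw [h2']
    nlinarith
  · have e1 : |(a1 * a2 - A * (b1 * b2)) ^ 2| ≤ ((1 + |A|) * T) ^ 2 := by
      rw [abs_pow]; exact pow_le_pow_left₀ (abs_nonneg _) d4 2
    have e2 : |4 * B * (b1 * b2) * (a1 * b2 + a2 * b1)| ≤ 8 * |B| * T ^ 2 := by
      rw [abs_mul, abs_mul, abs_mul]
      have h2' : |(4 : ℤ)| = 4 := rfl
      rw [h2']
      have : |b1 * b2| * |a1 * b2 + a2 * b1| ≤ T * (2 * T) :=
        mul_le_mul c4 d2 (abs_nonneg _) hT0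
      have h5 := mul_le_mul_of_nonneg_left this (show (0 : ℤ) ≤ 4 * |B| by linarith)
      nlinarith
    have e3 := abs_sub ((a1 * a2 - A * (b1 * b2)) ^ 2) (4 * B * (b1 * b2) * (a1 * b2 + a2 * b1))
    nlinarith

theorem PL_sum (A B X1 X2 Y1 Y2 X3 X4 : ℚ) (hne : X1 ≠ X2) (c1 : Y1 ^ 2 = X1 ^ 3 + A * X1 + B)
    (c2 : Y2 ^ 2 = X2 ^ 3 + A * X2 + B)
    (h3 : X3 = ((Y1 - Y2) / (X1 - X2)) ^ 2 - X1 - X2)
    (h4 : X4 = ((Y1 + Y2) / (X1 - X2)) ^ 2 - X1 - X2) :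
    (X1 - X2) ^ 2 * (X3 + X4) = 2 * ((X1 + X2) * (X1 * X2 + A) + 2 * B) ∧
    (X1 - X2) ^ 2 * (X3 * X4) = (X1 * X2 - A) ^ 2 - 4 * B * (X1 + X2) := by
  have hd : X1 - X2 ≠ 0 := sub_ne_zero.2 hne
  set a := (Y1 - Y2) / (X1 - X2) with ha
  set b := (Y1 + Y2) / (X1 - X2) with hb
  have ha' : a * (X1 - X2) = Y1 - Y2 := div_mul_cancel₀ _ hd
  have hb' : b * (X1 - X2) = Y1 + Y2 := div_mul_cancel₀ _ hd
  have hab : a * b * (X1 - X2) = X1 ^ 2 + X1 * X2 + X2 ^ 2 + A := by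
    apply mul_right_cancel₀ hd
    have : a * b * (X1 - X2) * (X1 - X2) = (a * (X1 - X2)) * (b * (X1 - X2)) := by ring
    rw [this, ha', hb']
    linear_combination c1 - c2
  have hsq : (a ^ 2 + b ^ 2) * (X1 - X2) ^ 2 = 2 * Y1 ^ 2 + 2 * Y2 ^ 2 := by
    have : (a ^ 2 + b ^ 2) * (X1 - X2) ^ 2 = (a * (X1 - X2)) ^ 2 + (b * (X1 - X2)) ^ 2 := by ring
    rw [this, ha', hb']; ring
  constructor
  · rw [h3, h4]
    linear_combination hsq + 2 * c1 + 2 * c2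
  · have h5 : (X1 - X2) ^ 2 * (X3 * X4) = (a * b * (X1 - X2)) ^ 2 -
        (X1 + X2) * ((a ^ 2 + b ^ 2) * (X1 - X2) ^ 2) + (X1 + X2) ^ 2 * (X1 - X2) ^ 2 := by
      rw [h3, h4]; ring
    rw [h5, hab, hsq, c1, c2]
    ring

theorem st_PL : ST_PL := by
  intro A B _
  refine ⟨Real.log (2 * (4 + 4 * |A| + A ^ 2 + 8 * |B| : ℤ)), ?_⟩
  intro x y hxy k l hl hlk
  have hk : 1 ≤ k := by omega
  have ca : (y k) ^ 2 = (x k) ^ 3 + A * x k + B := by
    have := hxy.curve k hk; rw [this]; ring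
  have cb : (y l) ^ 2 = (x l) ^ 3 + A * x l + B := by
    have := hxy.curve l hl; rw [this]; ring
  have hne := hxy.xne k l hl hlk
  have h3 : x (k + l) = ((y k - y l) / (x k - x l)) ^ 2 - x k - x l := by
    have := hxy.addx k l hl hlk; rw [this]; ring
  have h4 : x (k - l) = ((y k + y l) / (x k - x l)) ^ 2 - x k - x l := by
    have := hxy.subx k l hl hlk; rw [this]; ring
  obtain ⟨hs, hp⟩ := PL_sum A B (x k) (x l) (y k) (y l) _ _ hne ca cb h3 h4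
  generalize x (k + l) = X3 at *
  generalize x (k - l) = X4 at *
  generalize x k = X1 at *
  generalize x l = X2 at *
  set a1 := X1.num with ha1
  set b1 : ℤ := (X1.den : ℤ) with hb1
  set a2 := X2.num with ha2
  set b2 : ℤ := (X2.den : ℤ) with hb2
  have hb10 : 0 < b1 := by rw [hb1]; exact_mod_cast X1.den_pos
  have hb20 : 0 < b2 := by rw [hb2]; exact_mod_cast X2.den_pos
  have hb1q : (b1 : ℚ) ≠ 0 := by exact_mod_cast hb10.ne'
  have hb2q : (b2 : ℚ) ≠ 0 := by exact_mod_cast hb20.ne'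
  have hX1 : X1 = (a1 : ℚ) / b1 := by rw [ha1, hb1]; exact_mod_cast (Rat.num_div_den X1).symm
  have hX2 : X2 = (a2 : ℚ) / b2 := by rw [ha2, hb2]; exact_mod_cast (Rat.num_div_den X2).symm
  set H1 : ℤ := max |X1.num| (X1.den : ℤ) with hH1
  set H2 : ℤ := max |X2.num| (X2.den : ℤ) with hH2
  have hH11 : 1 ≤ H1 := PL_H_pos X1
  have hH21 : 1 ≤ H2 := PL_H_pos X2
  obtain ⟨n1, n2, n3⟩ := PL_num A B a1 b1 a2 b2 H1 H2 (le_max_left _ _)
    (by rw [abs_of_pos hb10]; exact le_max_right _ _) (le_max_left _ _)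
    (by rw [abs_of_pos hb20]; exact le_max_right _ _)
  have hU0 : (a1 * b2 - a2 * b1) ^ 2 ≠ 0 := by
    apply pow_ne_zero
    intro h0
    apply hne
    rw [hX1, hX2, div_eq_div_iff hb1q hb2q]
    have : a1 * b2 = a2 * b1 := by linarith
    exact_mod_cast this
  have hUc : (((a1 * b2 - a2 * b1) ^ 2 : ℤ) : ℚ) = (b1 * b2) ^ 2 * (X1 - X2) ^ 2 := by
    rw [hX1, hX2]; push_cast; field_simp
  have q1 : (((a1 * b2 - a2 * b1) ^ 2 : ℤ) : ℚ) * (X3 + X4) =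
      ((2 * ((a1 * b2 + a2 * b1) * (a1 * a2 + A * (b1 * b2)) + 2 * B * (b1 * b2) ^ 2) : ℤ) : ℚ) := by
    rw [hUc, mul_assoc, hs, hX1, hX2]
    push_cast
    field_simp
  have q2 : (((a1 * b2 - a2 * b1) ^ 2 : ℤ) : ℚ) * (X3 * X4) =
      (((a1 * a2 - A * (b1 * b2)) ^ 2 - 4 * B * (b1 * b2) * (a1 * b2 + a2 * b1) : ℤ) : ℚ) := by
    rw [hUc, mul_assoc, hp, hX1, hX2]
    push_cast
    field_simp
  have hfin := PL_prod X3 X4 _ _ _ hU0 q1 q2 _ n1 n2 n3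
  rw [PL_hQ X3, PL_hQ X4, PL_hQ X1, PL_hQ X2]
  have p3 : (0 : ℝ) < ((max |X3.num| X3.den : ℤ) : ℝ) := by exact_mod_cast PL_H_pos X3
  have p4 : (0 : ℝ) < ((max |X4.num| X4.den : ℤ) : ℝ) := by exact_mod_cast PL_H_pos X4
  have p1 : (0 : ℝ) < (H1 : ℝ) := by exact_mod_cast hH11
  have p2 : (0 : ℝ) < (H2 : ℝ) := by exact_mod_cast hH21
  have pC : (0 : ℝ) < 2 * ((4 + 4 * |A| + A ^ 2 + 8 * |B| : ℤ) : ℝ) := by
    have : (0 : ℤ) < 4 + 4 * |A| + A ^ 2 + 8 * |B| := by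
      have := abs_nonneg A; have := abs_nonneg B; have := sq_nonneg A; linarith
    have h' : (0 : ℝ) < ((4 + 4 * |A| + A ^ 2 + 8 * |B| : ℤ) : ℝ) := by exact_mod_cast this
    linarith
  rw [← Real.log_mul p3.ne' p4.ne']
  have hR : ((max |X3.num| X3.den : ℤ) : ℝ) * ((max |X4.num| X4.den : ℤ) : ℝ) ≤
      (2 * ((4 + 4 * |A| + A ^ 2 + 8 * |B| : ℤ) : ℝ)) * ((H1 : ℝ) ^ 2 * (H2 : ℝ) ^ 2) := by
    have h5 : (max |X3.num| X3.den : ℤ) * (max |X4.num| X4.den : ℤ) ≤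
      (2 * (4 + 4 * |A| + A ^ 2 + 8 * |B|)) * (H1 ^ 2 * H2 ^ 2) := by
      refine hfin.trans (le_of_eq ?_); ring
    exact_mod_cast h5
  refine (Real.log_le_log (mul_pos p3 p4) hR).trans (le_of_eq ?_)
  have p12 : ((H1 : ℝ) ^ 2 * (H2 : ℝ) ^ 2) ≠ 0 := by positivity
  have p11 : ((H1 : ℝ) ^ 2) ≠ 0 := by positivity
  have p22 : ((H2 : ℝ) ^ 2) ≠ 0 := by positivity
  rw [Real.log_mul pC.ne' p12, Real.log_mul p11 p22, Real.log_pow, Real.log_pow]
  have e2 : ((2 : ℕ) : ℝ) = 2 := by norm_num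
  rw [e2]
  change _ = 2 * Real.log (H1 : ℝ) + 2 * Real.log (H2 : ℝ) + _
  ring

end Pool.Agent.Helper42.LS
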